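import Pool.Agent.helper82.UM.Spec

set_option autoImplicit false

/-!
# UM, row VAL (helper30)
-/

namespace Pool.Agent.UM

open Matrix Polynomial Pool.Agent.GO Pool.Agent.AR Pool.Agent.RG Pool.Agent.HZ Pool.Agent.DS
  Pool.Agent.AX MeasureTheory NumberField

theorem VAL_one {r : ℕ} (Φ : (MvPolynomial (Fin r × ℕ) ℤ)[X]) {F F' : Type} [CommRing F] [CommRing F']
    (f : F →+* F') (P : Fin r → F[X]) (t : F) : f (ev Φ P t) = ev Φ (fun i => (P i).map f) (f t) := by
  unfold ev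
  rw [← Polynomial.eval_map_apply, Polynomial.map_map]
  congr 2
  refine MvPolynomial.ringHom_ext (fun n => ?_) (fun k => ?_)
  · simp
  · simp

theorem VAL_val {r : ℕ} (Φ : (MvPolynomial (Fin r × ℕ) ℤ)[X]) {E : Type} [Field E]
    (P : Fin r → ℤ[X]) (Q : (𝓞 E)[X]) :
    val Φ P Q = ev Φ (fun i => (P i).map (Int.castRingHom (𝓞 E))) (-(Q.coeff 1)) := by
  unfold val relVal PhiE ev
  rw [Polynomial.map_map]
  congr 2
  refine MvPolynomial.ringHom_ext (fun n => ?_) (fun k => ?_)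
  · simp
  · simp

theorem VAL : VAL_stmt := by
  refine ⟨fun {r} Φ {F F'} _ _ f P t => VAL_one Φ f P t, ?_⟩
  intro r Φ E _ F _ f P Q
  rw [VAL_val, VAL_one, map_neg]
  congr 1
  funext i
  rw [Polynomial.map_map]
  congr 1
  exact RingHom.ext_int _ _

end Pool.Agent.UM
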